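import Mathlib
import Pool.Agent.Y822.R.Out

/-!
# Almost all tuples of indices `k ≤ n` with `2 k + 1` prime: simultaneous almost primes `p_{kn} ^ 2 - 1 - q`

For every large `n` and almost all `r`-element sets `T` of indices `k ≤ n` with `2 k + 1` prime and `p_{kn} ^ 2 - 1`
in a window `(N, 2 N]` there are as many primes `q ≤ N` as expected (up to a constant) for which all the numbers
`p_{kn} ^ 2 - 1 - q`, `k ∈ T`, have at most two prime factors. The question is about `q = 1`.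
The main ingredient is the theorem `Pool.Agent.Y822.R.both` of helper822 on tuples of an arbitrary sparse set of even
numbers.
-/

set_option autoImplicit false

namespace Pool.Agent.Results.MP_c971ef_nt.AlmostAllTuples

open Finset Filter Pool.Agent.H387R2.Uni

/-- the `m`-th prime, `p 1 = 2` -/
noncomputable def p (m : ℕ) : ℕ := Nat.nth Nat.Prime (m - 1)

open Classical in
/-- the `k ≤ n` such that `2 k + 1` is prime and `N < p_{kn} ^ 2 - 1 ≤ 2 N` -/
noncomputable def K (n N : ℕ) : Finset ℕ :=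
  (Icc 1 n).filter (fun k => (2 * k + 1).Prime ∧ N < p (k * n) ^ 2 - 1 ∧ p (k * n) ^ 2 - 1 ≤ 2 * N)

/-- `0` and the numbers `p_{kn} ^ 2 - 1`, `k ∈ T` -/
noncomputable def Z (n : ℕ) (T : Finset ℕ) : Finset ℕ := insert 0 (T.image (fun k => p (k * n) ^ 2 - 1))

/-- the number of `q ≤ N` expected by the conjecture of Hardy and Littlewood -/
noncomputable def E (n N : ℕ) (T : Finset ℕ) : ℝ := CT (Z n T) * (N / Real.log N ^ (T.card + 1))

open Classical in
/-- the number of primes `q ≤ N` such that all the `p_{kn} ^ 2 - 1 - q`, `k ∈ T`, have at most two prime factors, counted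
with multiplicity, all of them at least `N ^ (1/7)` -/
noncomputable def almost (n N : ℕ) (T : Finset ℕ) : ℕ :=
  ((Icc 1 N).filter (fun q => q.Prime ∧ ∀ k ∈ T, (p (k * n) ^ 2 - 1 - q).primeFactorsList.length ≤ 2 ∧
    ∀ l : ℕ, l ∈ (p (k * n) ^ 2 - 1 - q).primeFactors → (N : ℝ) ^ (1 / 7 : ℝ) ≤ (l : ℝ))).card

open Classical in
/-- the number of primes `q ≤ N` such that all the `p_{kn} ^ 2 - 1 - q`, `k ∈ T`, are prime -/
noncomputable def prime (n N : ℕ) (T : Finset ℕ) : ℕ :=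
  ((Icc 1 N).filter (fun q => q.Prime ∧ ∀ k ∈ T, (p (k * n) ^ 2 - 1 - q).Prime)).card

lemma p_ge (m : ℕ) (hm : 1 ≤ m) : m + 1 ≤ p m := by
  have := Nat.add_two_le_nth_prime (m - 1)
  unfold p
  omega

lemma p_prime (m : ℕ) : (p m).Prime := Nat.prime_nth_prime _

lemma p_odd (m : ℕ) (h : 3 < p m) : p m % 2 = 1 := by
  rcases (p_prime m).eq_two_or_odd with h1 | h1
  · omega
  · exact h1

/-- the squares do not cover all classes modulo an odd prime -/
lemma exists_nonsq {l : ℕ} (hl : l.Prime) (hl2 : l ≠ 2) : ∃ y : ZMod l, ∀ x : ZMod l, x ^ 2 ≠ y := by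
  have : Fact l.Prime := ⟨hl⟩
  by_contra hcon
  push Not at hcon
  have hsurj : Function.Surjective (fun x : ZMod l => x ^ 2) := fun y => hcon y
  have hinj := Finite.injective_iff_surjective.2 hsurj
  have h1 : (1 : ZMod l) = -1 := hinj (by simp)
  have h2 : ((2 : ℕ) : ZMod l) = 0 := by
    push_cast
    linear_combination h1
  have h3 := (ZMod.natCast_eq_zero_iff 2 l).1 h2
  exact hl2 ((Nat.prime_dvd_prime_iff_eq hl Nat.prime_two).1 h3)

/-- squares of odd numbers minus 1 and 0 are admissible -/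
lemma adm (n : ℕ) (T : Finset ℕ) (hT : ∀ k ∈ T, 3 < p (k * n)) : Adm (Z n T) := by
  intro l hl
  unfold nuT
  by_cases hl2 : l = 2
  · subst hl2
    have : (Z n T).image (· % 2) ⊆ {0} := by
      intro x hx
      rw [mem_image] at hx
      obtain ⟨z, hz, rfl⟩ := hx
      unfold Z at hz
      rw [mem_insert, mem_image] at hz
      rw [mem_singleton]
      rcases hz with rfl | ⟨k, hk, rfl⟩
      · rfl
      · have h1 := p_odd _ (hT k hk)
        have h2 : p (k * n) ^ 2 % 2 = 1 := by rw [Nat.pow_mod, h1]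
        have h3 : 1 ≤ p (k * n) ^ 2 := Nat.one_le_pow _ _ (p_prime _).pos
        show (p (k * n) ^ 2 - 1) % 2 = 0
        omega
    have h := card_le_card this
    rw [card_singleton] at h
    omega
  · have : Fact l.Prime := ⟨hl⟩
    obtain ⟨y, hy⟩ := exists_nonsq hl hl2
    have : (Z n T).image (· % l) ⊆ (range l).erase (y - 1).val := by
      intro x hx
      rw [mem_image] at hx
      obtain ⟨z, hz, rfl⟩ := hx
      rw [mem_erase, mem_range]
      refine ⟨fun hcon => ?_, Nat.mod_lt _ hl.pos⟩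
      have h4 : (z : ZMod l) = y - 1 := by
        have h5 : ((z % l : ℕ) : ZMod l) = y - 1 := by
          have : z % l = (y - 1).val := hcon
          rw [this, ZMod.natCast_zmod_val]
        rwa [ZMod.natCast_mod] at h5
      unfold Z at hz
      rw [mem_insert, mem_image] at hz
      rcases hz with rfl | ⟨k, hk, rfl⟩
      · apply hy 1
        push_cast at h4
        linear_combination h4
      · apply hy (p (k * n) : ZMod l)
        have h3 : 1 ≤ p (k * n) ^ 2 := Nat.one_le_pow _ _ (p_prime _).pos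
        rw [Nat.cast_sub h3] at h4
        push_cast at h4
        linear_combination h4
    have h := card_le_card this
    rw [card_erase_of_mem (mem_range.2 (ZMod.val_lt _)), card_range] at h
    have := hl.pos
    omega

lemma f_inj (n : ℕ) (hn : 1 ≤ n) : Set.InjOn (fun k => p (k * n) ^ 2 - 1) {k : ℕ | 1 ≤ k} := by
  intro a ha b hb hab
  have h1 : 1 ≤ p (a * n) ^ 2 := Nat.one_le_pow _ _ (p_prime _).pos
  have h2 : 1 ≤ p (b * n) ^ 2 := Nat.one_le_pow _ _ (p_prime _).pos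
  have h3 : p (a * n) ^ 2 = p (b * n) ^ 2 := by
    have : p (a * n) ^ 2 - 1 = p (b * n) ^ 2 - 1 := hab
    omega
  have h4 : p (a * n) = p (b * n) := Nat.pow_left_injective (by norm_num : 2 ≠ 0) h3
  have h5 := Nat.nth_injective Nat.infinite_setOfPred_prime h4
  have ha' : 1 ≤ a * n := Nat.mul_pos ha hn
  have hb' : 1 ≤ b * n := Nat.mul_pos hb hn
  have h6 : a * n = b * n := by omega
  exact Nat.eq_of_mul_eq_mul_right hn h6

lemma K_mem {n N k : ℕ} (h : k ∈ K n N) : 1 ≤ k ∧ N < p (k * n) ^ 2 - 1 ∧ p (k * n) ^ 2 - 1 ≤ 2 * N := by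
  classical
  unfold K at h
  rw [mem_filter, mem_Icc] at h
  exact ⟨h.1.1, h.2.2⟩

lemma K_three {n N k : ℕ} (hN : 10 ≤ N) (h : k ∈ K n N) : 3 < p (k * n) := by
  have h1 := (K_mem h).2.1
  by_contra hcon
  push Not at hcon
  have : p (k * n) ^ 2 ≤ 3 ^ 2 := Nat.pow_le_pow_left hcon 2
  omega

lemma almost_eq (n N : ℕ) (T : Finset ℕ) :
    Pool.Agent.Y822.R.gol2 (T.image (fun k => p (k * n) ^ 2 - 1)) N = almost n N T := by
  classical
  unfold Pool.Agent.Y822.R.gol2 almost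
  congr 1
  ext q
  rw [mem_filter, mem_filter]
  simp only [mem_image, forall_exists_index, and_imp, forall_apply_eq_imp_iff₂]

lemma prime_eq (n N : ℕ) (T : Finset ℕ) :
    Pool.Agent.Y822.R.golH (T.image (fun k => p (k * n) ^ 2 - 1)) N = prime n N T := by
  classical
  unfold Pool.Agent.Y822.R.golH prime
  congr 1
  ext q
  rw [mem_filter, mem_filter]
  simp only [mem_image, forall_exists_index, and_imp, forall_apply_eq_imp_iff₂]

lemma card_im {n N : ℕ} (hn : 1 ≤ n) {T : Finset ℕ} (hT : T ⊆ K n N) :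
    (T.image (fun k => p (k * n) ^ 2 - 1)).card = T.card :=
  card_image_of_injOn ((f_inj n hn).mono fun _ hk => (K_mem (hT hk)).1)

lemma card_Z {n N : ℕ} (hn : 1 ≤ n) {T : Finset ℕ} (hT : T ⊆ K n N) : (Z n T).card = T.card + 1 := by
  unfold Z
  rw [card_insert_of_notMem, card_im hn hT]
  intro h
  rw [mem_image] at h
  obtain ⟨k, hk, h0⟩ := h
  have := (K_mem (hT hk)).2.1
  omega

open Classical in
/-- part (1) for large `N` -/
lemma part1 : ∃ c : ℝ, 0 < c ∧ ∀ r : ℕ, 1 ≤ r → ∀ ε : ℝ, 0 < ε → ∃ B N₀ : ℕ, ∀ n : ℕ, 1 ≤ n → ∀ N : ℕ, N₀ ≤ N → Even N →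
    ((((K n N).powersetCard r).filter (fun T => ¬ (c ^ r * E n N T ≤ almost n N T ∧
      (prime n N T : ℝ) ≤ (4 ^ r + ε) * E n N T))).card : ℝ) ≤ (K n N).card.choose (r - 1) * Real.log N ^ B := by
  obtain ⟨c, hc, hmain⟩ := Pool.Agent.Y822.R.both
  refine ⟨c, hc, fun r hr ε hε => ?_⟩
  obtain ⟨k, rfl⟩ : ∃ j, r = j + 1 := ⟨r - 1, by omega⟩
  obtain ⟨B, hB⟩ := hmain k ε hε
  obtain ⟨N₀, hN₀⟩ := eventually_atTop.1 hB
  refine ⟨B, N₀ + 10, fun n hn N hN hev => ?_⟩
  rw [Nat.add_sub_cancel]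
  have h := hN₀ N (by omega) hev ((K n N).image (fun k => p (k * n) ^ 2 - 1)) (by
    intro m hm
    rw [mem_image] at hm
    obtain ⟨a, ha, rfl⟩ := hm
    exact (K_mem ha).2)
  rw [card_im hn (subset_refl _)] at h
  refine le_trans (Nat.cast_le.2 ?_) h
  apply card_le_card_of_injOn (fun T => T.image (fun k => p (k * n) ^ 2 - 1))
  · intro T hT
    rw [mem_coe, mem_filter, mem_powersetCard] at hT
    obtain ⟨⟨hT1, hT2⟩, hT3⟩ := hT
    rw [mem_coe, mem_filter, mem_powersetCard]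
    refine ⟨⟨image_subset_image hT1, by rw [card_im hn hT1, hT2]⟩, ?_, ?_⟩
    · exact adm n T fun k hk => K_three (by omega) (hT1 hk)
    · rw [almost_eq, prime_eq]
      unfold E Z at hT3
      rw [hT2] at hT3
      unfold Pool.Agent.Y822.pat
      intro hcon
      apply hT3
      have e1 : k + 1 + 1 = k + 2 := rfl
      rw [e1]
      constructor
      · rw [← mul_assoc]
        exact hcon.1
      · rw [← mul_assoc]
        exact hcon.2
  · intro T₁ h1 T₂ h2 he
    rw [mem_coe, mem_filter, mem_powersetCard] at h1 h2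
    have hinj := f_inj n hn
    have he' : T₁.image (fun k => p (k * n) ^ 2 - 1) = T₂.image (fun k => p (k * n) ^ 2 - 1) := he
    ext x
    constructor
    · intro hx
      have h3 : p (x * n) ^ 2 - 1 ∈ T₂.image (fun k => p (k * n) ^ 2 - 1) := by
        rw [← he']
        exact mem_image_of_mem _ hx
      rw [mem_image] at h3
      obtain ⟨y, hy, h4⟩ := h3
      have := hinj (K_mem (h2.1.1 hy)).1 (K_mem (h1.1.1 hx)).1 h4
      rwa [← this]
    · intro hx
      have h3 : p (x * n) ^ 2 - 1 ∈ T₁.image (fun k => p (k * n) ^ 2 - 1) := by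
        rw [he']
        exact mem_image_of_mem _ hx
      rw [mem_image] at h3
      obtain ⟨y, hy, h4⟩ := h3
      have := hinj (K_mem (h1.1.1 hy)).1 (K_mem (h2.1.1 hx)).1 h4
      rwa [← this]

/-- a lower bound for the expected number -/
lemma low_E (r : ℕ) : ∃ δ : ℝ, 0 < δ ∧ ∀ n : ℕ, 1 ≤ n → ∀ N : ℕ, 10 ≤ N → ∀ T ⊆ K n N, T.card = r →
    δ * (N / Real.log N ^ (r + 1)) ≤ E n N T := by
  obtain ⟨δ, hδ, h⟩ := Pool.Agent.Y822.PT_low r
  refine ⟨δ, hδ, fun n hn N hN T hT hTr => ?_⟩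
  have h1 := (h (Z n T) (by rw [card_Z hn hT, hTr]) (adm n T fun k hk => K_three hN (hT hk))).2
  unfold E
  rw [hTr]
  apply mul_le_mul_of_nonneg_right h1
  have : 0 ≤ Real.log N := Real.log_nonneg (by exact_mod_cast (by omega : 1 ≤ N))
  positivity

lemma ev_log (a : ℝ) (ha : 0 < a) : ∃ n₀ : ℕ, ∀ n : ℕ, n₀ ≤ n → Real.log n ≤ a * n := by
  have h := Real.isLittleO_log_id_atTop.def ha
  have h2 := (tendsto_natCast_atTop_atTop (R := ℝ)).eventually h
  obtain ⟨n₀, hn₀⟩ := eventually_atTop.1 h2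
  refine ⟨n₀, fun n hn => ?_⟩
  have h3 := hn₀ n hn
  rw [Real.norm_eq_abs, Real.norm_eq_abs, id, abs_of_nonneg (Nat.cast_nonneg n : (0 : ℝ) ≤ n)] at h3
  exact (le_abs_self _).trans h3

lemma ev_log_ge (a : ℝ) : ∃ n₀ : ℕ, ∀ n : ℕ, n₀ ≤ n → a ≤ Real.log n := by
  have h := (Real.tendsto_log_atTop.comp (tendsto_natCast_atTop_atTop (R := ℝ))).eventually (eventually_ge_atTop a)
  exact eventually_atTop.1 h

lemma log_succ_le (m : ℕ) (hm : 1 ≤ m) : Real.log (m + 1) ≤ Real.log m + 1 := by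
  have h0 : (0 : ℝ) < m := by exact_mod_cast hm
  have h1 : Real.log ((m : ℝ) + 1) ≤ Real.log (2 * m) := by
    apply Real.log_le_log (by positivity)
    have : (1 : ℝ) ≤ m := by exact_mod_cast hm
    linarith
  rw [Real.log_mul (by norm_num) h0.ne'] at h1
  have := Real.log_two_lt_d9
  linarith

/-- the `m`-th prime is at most `m ^ 2` for large `m` -/
lemma nth_le : ∃ m₀ : ℕ, ∀ m : ℕ, m₀ ≤ m → ∀ i : ℕ, i < m → Nat.nth Nat.Prime i ≤ m ^ 2 := by
  obtain ⟨m1, h1⟩ := ev_log (1 / 16) (by norm_num)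
  refine ⟨m1 + 100, fun m hm i hi => ?_⟩
  have hl := h1 m (by omega)
  have hm100 : (100 : ℝ) ≤ m := by exact_mod_cast (by omega : 100 ≤ m)
  have h2 := Chebyshev.pi_ge (m ^ 2)
  have h3 : Real.log (((m ^ 2 : ℕ) : ℝ)) = 2 * Real.log m := by
    push_cast
    rw [Real.log_pow]
    norm_num
  have hlm : 0 < Real.log m := Real.log_pos (by linarith)
  have h4 := log_succ_le (m ^ 2) (by nlinarith)
  rw [h3] at h2 h4
  have h5 := Real.log_two_gt_d9
  have h6 : (m : ℝ) ≤ Nat.primeCounting (m ^ 2) := by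
    refine le_trans ?_ h2
    rw [le_div_iff₀ (by positivity)]
    push_cast at h4 ⊢
    have h7 : (m : ℝ) * (2 * Real.log m) ≤ m * (2 * (1 / 16 * m)) := by
      apply mul_le_mul_of_nonneg_left _ (by linarith)
      linarith
    have h8 : (m : ℝ) ^ 2 * 0.6931471803 ≤ (m : ℝ) ^ 2 * Real.log 2 := by
      apply mul_le_mul_of_nonneg_left h5.le (by positivity)
    nlinarith
  have h9 : m ≤ Nat.primeCounting (m ^ 2) := by exact_mod_cast h6
  have h10 : i < Nat.count Nat.Prime (m ^ 2 + 1) := by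
    have : Nat.count Nat.Prime (m ^ 2 + 1) = Nat.primeCounting (m ^ 2) := rfl
    omega
  have := Nat.nth_lt_of_lt_count h10
  omega

open Classical in
/-- the number of `k ≤ n` with `2 k + 1` prime -/
lemma count_low : ∃ n₀ : ℕ, ∀ n : ℕ, n₀ ≤ n →
    (n : ℝ) ≤ 2 * Real.log n * (((Icc 1 n).filter (fun k => (2 * k + 1).Prime)).card : ℝ) := by
  obtain ⟨n1, h1⟩ := ev_log (1 / 16) (by norm_num)
  refine ⟨n1 + 100, fun n hn => ?_⟩
  have hl := h1 n (by omega)
  have hn100 : (100 : ℝ) ≤ n := by exact_mod_cast (by omega : 100 ≤ n)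
  have h2 := Chebyshev.pi_ge (2 * n + 1)
  have hln : 0 < Real.log n := Real.log_pos (by linarith)
  have h3 : Nat.primeCounting (2 * n + 1) ≤ ((Icc 1 n).filter (fun k => (2 * k + 1).Prime)).card + 1 := by
    have e : Nat.primeCounting (2 * n + 1) = ((range (2 * n + 2)).filter Nat.Prime).card := by
      unfold Nat.primeCounting Nat.primeCounting'
      rw [Nat.count_eq_card_filter_range]
    rw [e]
    have h4 : (((range (2 * n + 2)).filter Nat.Prime).erase 2).card ≤ ((Icc 1 n).filter (fun k => (2 * k + 1).Prime)).card := by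
      apply card_le_card_of_injOn (fun q => (q - 1) / 2)
      · intro q hq
        rw [mem_coe, mem_erase, mem_filter, mem_range] at hq
        obtain ⟨a1, a2, a3⟩ := hq
        have a4 := a3.eq_two_or_odd
        have a5 := a3.two_le
        rw [mem_coe, mem_filter, mem_Icc]
        show (1 ≤ (q - 1) / 2 ∧ (q - 1) / 2 ≤ n) ∧ (2 * ((q - 1) / 2) + 1).Prime
        have a6 : 2 * ((q - 1) / 2) + 1 = q := by omega
        rw [a6]
        exact ⟨by omega, a3⟩
      · intro a ha b hb hab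
        rw [mem_coe, mem_erase, mem_filter] at ha hb
        have a1 := ha.2.2.eq_two_or_odd
        have b1 := hb.2.2.eq_two_or_odd
        have : (a - 1) / 2 = (b - 1) / 2 := hab
        have a2 := ha.1
        have b2 := hb.1
        omega
    have h5 := card_erase_add_one (s := (range (2 * n + 2)).filter Nat.Prime) (a := 2) (by
      rw [mem_filter, mem_range]
      exact ⟨by omega, Nat.prime_two⟩)
    omega
  have h3' : ((Nat.primeCounting (2 * n + 1) : ℕ) : ℝ) ≤ (((Icc 1 n).filter (fun k => (2 * k + 1).Prime)).card : ℝ) + 1 := by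
    exact_mod_cast h3
  obtain ⟨P, hP⟩ : ∃ P : ℝ, P = (((Icc 1 n).filter (fun k => (2 * k + 1).Prime)).card : ℝ) := ⟨_, rfl⟩
  rw [← hP] at h3' ⊢
  have h6 : Real.log (((2 * n + 1 : ℕ) : ℝ)) ≤ Real.log n + 2 := by
    have : Real.log (((2 * n + 1 : ℕ) : ℝ)) ≤ Real.log (3 * n) := by
      apply Real.log_le_log (by positivity)
      push_cast
      linarith
    rw [Real.log_mul (by norm_num) (by linarith)] at this
    have h7 : Real.log 3 ≤ 2 := by
      have := Real.log_le_sub_one_of_pos (by norm_num : (0 : ℝ) < 3)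
      linarith
    linarith
  have h8 := log_succ_le (2 * n + 1) (by omega)
  have h9 := Real.log_two_gt_d9
  have hpos : 0 < Real.log (((2 * n + 1 : ℕ) : ℝ)) := by
    apply Real.log_pos
    push_cast
    linarith
  have h10 : (((2 * n + 1 : ℕ) : ℝ) * Real.log 2 - Real.log (((2 * n + 1 : ℕ) : ℝ) + 1)) ≤ (P + 1) * Real.log (((2 * n + 1 : ℕ) : ℝ)) := by
    rw [div_le_iff₀ hpos] at h2
    exact h2.trans (mul_le_mul_of_nonneg_right h3' hpos.le)
  have hP0 : 0 ≤ P := by rw [hP]; positivity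
  have h11 : (P + 1) * Real.log (((2 * n + 1 : ℕ) : ℝ)) ≤ (P + 1) * (Real.log n + 2) :=
    mul_le_mul_of_nonneg_left h6 (by linarith)
  have h12 : ((2 * n + 1 : ℕ) : ℝ) * 0.6931471803 ≤ ((2 * n + 1 : ℕ) : ℝ) * Real.log 2 :=
    mul_le_mul_of_nonneg_left h9.le (Nat.cast_nonneg _)
  push_cast at h8 h10 h11 h12 h6
  have hP' : 2 ≤ Real.log n := by
    rw [Real.le_log_iff_exp_le (by linarith)]
    have : Real.exp 2 = Real.exp 1 * Real.exp 1 := by rw [← Real.exp_add]; norm_num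
    rw [this]
    have := Real.exp_one_lt_d9
    have h0 := Real.exp_pos 1
    nlinarith
  have h13 : P * (Real.log n + 2) ≤ P * (2 * Real.log n) := mul_le_mul_of_nonneg_left (by linarith) hP0
  nlinarith

/-- some window contains many `k` -/
lemma part2 : ∃ n₀ : ℕ, ∀ n : ℕ, n₀ ≤ n →
    ∃ N : ℕ, Even N ∧ n ^ 2 ≤ 2 * N ∧ N ≤ n ^ 8 ∧ (n : ℝ) / Real.log n ^ 3 ≤ (K n N).card := by
  classical
  obtain ⟨m₀, hm₀⟩ := nth_le
  obtain ⟨n1, hn1⟩ := count_low
  obtain ⟨n2, hn2⟩ := ev_log_ge 100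
  refine ⟨m₀ + n1 + n2 + 10, fun n hn => ?_⟩
  have hL := hn2 n (by omega)
  have hc := hn1 n (by omega)
  have hn10 : 10 ≤ n := by omega
  obtain ⟨P, hP⟩ : ∃ P, P = (Icc 1 n).filter (fun k => (2 * k + 1).Prime) := ⟨_, rfl⟩
  rw [← hP] at hc
  have hf : ∀ k, 1 ≤ k → k ≤ n → n ^ 2 ≤ p (k * n) ^ 2 - 1 - 1 ∧ p (k * n) ^ 2 - 1 - 1 < n ^ 8 := by
    intro k hk1 hk2
    have a1 : n ≤ k * n := Nat.le_mul_of_pos_left n hk1
    have a2 := p_ge (k * n) (by omega)
    have a3 : (n + 1) ^ 2 ≤ p (k * n) ^ 2 := Nat.pow_le_pow_left (by omega) 2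
    have a4 : k * n ≤ n ^ 2 := by nlinarith
    have a5 : p (k * n) ≤ (n ^ 2) ^ 2 := hm₀ (n ^ 2) (by nlinarith) _ (by omega)
    have a6 : p (k * n) ^ 2 ≤ ((n ^ 2) ^ 2) ^ 2 := Nat.pow_le_pow_left a5 2
    have a7 : ((n ^ 2) ^ 2) ^ 2 = n ^ 8 := by ring
    rw [a7] at a6
    have a8 : (n + 1) ^ 2 = n ^ 2 + 2 * n + 1 := by ring
    omega
  obtain ⟨L, hLd⟩ : ∃ L, L = Nat.log 2 n + 1 := ⟨_, rfl⟩
  have hnL : n < 2 ^ L := by rw [hLd]; exact Nat.lt_pow_succ_log_self (by norm_num) n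
  have hi : ∀ k ∈ P, Nat.log 2 (p (k * n) ^ 2 - 1 - 1) ∈ range (8 * L) := by
    intro k hk
    rw [hP, mem_filter, mem_Icc] at hk
    obtain ⟨b1, b2⟩ := hf k hk.1.1 hk.1.2
    rw [mem_range]
    apply Nat.log_lt_of_lt_pow (by nlinarith)
    refine b2.trans_le ?_
    rw [mul_comm 8 L, pow_mul]
    exact Nat.pow_le_pow_left hnL.le 8
  have hnr : (0 : ℝ) < n := by exact_mod_cast (by omega : 0 < n)
  have hLr : (L : ℝ) ≤ 3 * Real.log n := by
    have h1 : ((Nat.log 2 n : ℕ) : ℝ) ≤ Real.log n / Real.log 2 := by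
      rw [le_div_iff₀ (Real.log_pos (by norm_num))]
      have h2 : (2 : ℝ) ^ (Nat.log 2 n) ≤ n := by exact_mod_cast Nat.pow_log_le_self 2 (by omega)
      have h3 := Real.log_le_log (by positivity) h2
      rwa [Real.log_pow] at h3
    have h4 : Real.log n / Real.log 2 ≤ 2 * Real.log n := by
      rw [div_le_iff₀ (Real.log_pos (by norm_num))]
      have := Real.log_two_gt_d9
      nlinarith
    rw [hLd]
    push_cast
    linarith
  obtain ⟨l, hl⟩ : ∃ l, l = Real.log n := ⟨_, rfl⟩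
  rw [← hl] at hL hc hLr ⊢
  obtain ⟨i, hi1, hi2⟩ := exists_le_card_fiber_of_nsmul_le_card_of_maps_to (M := ℝ) (b := n / l ^ 3) hi
    ⟨0, by rw [mem_range]; omega⟩ (by
      rw [card_range, nsmul_eq_mul]
      push_cast
      have h1 : 8 * (L : ℝ) * (n / l ^ 3) ≤ 8 * (3 * l) * (n / l ^ 3) := by
        apply mul_le_mul_of_nonneg_right _ (by positivity)
        linarith
      refine h1.trans ?_
      have h2 : 8 * (3 * l) * (n / l ^ 3) = 24 * n / l ^ 2 := by
        field_simp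
        ring
      rw [h2, div_le_iff₀ (by positivity)]
      have hPc : (0 : ℝ) ≤ (P.card : ℝ) := Nat.cast_nonneg _
      have h3 : 24 * (2 * l * (P.card : ℝ)) ≤ P.card * l ^ 2 := by nlinarith
      linarith)
  have hpos : (0 : ℝ) < n / l ^ 3 := by positivity
  have hne : 0 < (P.filter (fun k => Nat.log 2 (p (k * n) ^ 2 - 1 - 1) = i)).card := by
    exact_mod_cast hpos.trans_le hi2
  have hwin : ∀ k ∈ P.filter (fun k => Nat.log 2 (p (k * n) ^ 2 - 1 - 1) = i), k ∈ K n (2 ^ i) ∧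
      n ^ 2 < 2 ^ i * 2 ∧ 2 ^ i < n ^ 8 := by
    intro k hk
    rw [mem_filter, hP, mem_filter, mem_Icc] at hk
    obtain ⟨⟨⟨c1, c2⟩, c3⟩, c4⟩ := hk
    obtain ⟨b1, b2⟩ := hf k c1 c2
    have b0 : p (k * n) ^ 2 - 1 - 1 ≠ 0 := by
      have : 0 < n ^ 2 := by positivity
      omega
    have d1 : 2 ^ i ≤ p (k * n) ^ 2 - 1 - 1 := by
      rw [← c4]
      exact Nat.pow_log_le_self 2 b0
    have d2 : p (k * n) ^ 2 - 1 - 1 < 2 ^ i * 2 := by
      rw [← pow_succ, ← c4]
      exact Nat.lt_pow_succ_log_self (by norm_num) _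
    refine ⟨?_, by omega, by omega⟩
    unfold K
    rw [mem_filter, mem_Icc]
    exact ⟨⟨c1, c2⟩, c3, by omega, by omega⟩
  obtain ⟨k, hk⟩ := card_pos.1 hne
  obtain ⟨e1, e2, e3⟩ := hwin k hk
  refine ⟨2 ^ i, ?_, by omega, e3.le, hi2.trans (Nat.cast_le.2 (card_le_card fun x hx => (hwin x hx).1))⟩
  rcases Nat.eq_zero_or_pos i with h0 | h0
  · subst h0
    have : 100 ≤ n ^ 2 := by nlinarith
    omega
  · exact (Nat.even_pow.2 ⟨even_two, h0.ne'⟩)

open Classical in
/-- There is an absolute constant `c > 0` such that for every `r ≥ 1` there is `δ > 0` such that for every `ε > 0` there are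
`B` and `n₀` such that for every `n ≥ n₀`:
(1) for every even `N ≥ n`, with `K` the set of the `k ≤ n` for which `2 k + 1` is prime and `N < p_{kn} ^ 2 - 1 ≤ 2 N`:
for every `r`-element subset `T` of `K` the expected number `E` is at least `δ N / log ^ (r + 1) N`, and for all but at
most `C(#K, r - 1) log ^ B N` of these `T` there are at least `c ^ r E` primes `q ≤ N` for which all the numbers
`p_{kn} ^ 2 - 1 - q`, `k ∈ T`, have at most two prime factors, all at least `N ^ (1/7)`, and at most `(4 ^ r + ε) E` primes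
`q ≤ N` for which all of them are prime;
(2) there is an even `N` with `n ^ 2 / 2 ≤ N ≤ n ^ 8` for which `K` has at least `n / log ^ 3 n` elements.
The product which defines the constant in `E` converges. -/
theorem result : (∀ S : Finset ℕ, HasProd (fun l : Nat.Primes => locT S l) (CT S)) ∧ ∃ c : ℝ, 0 < c ∧ ∀ r : ℕ, 1 ≤ r → ∃ δ : ℝ, 0 < δ ∧ ∀ ε : ℝ, 0 < ε → ∃ B n₀ : ℕ, ∀ n : ℕ, n₀ ≤ n →
    (∀ N : ℕ, Even N → n ≤ N →
      (∀ T ⊆ K n N, T.card = r → δ * (N / Real.log N ^ (r + 1)) ≤ E n N T) ∧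
      ((((K n N).powersetCard r).filter (fun T => ¬ (c ^ r * E n N T ≤ almost n N T ∧
        (prime n N T : ℝ) ≤ (4 ^ r + ε) * E n N T))).card : ℝ) ≤ (K n N).card.choose (r - 1) * Real.log N ^ B) ∧
    ∃ N : ℕ, Even N ∧ n ^ 2 ≤ 2 * N ∧ N ≤ n ^ 8 ∧ (n : ℝ) / Real.log n ^ 3 ≤ (K n N).card := by
  obtain ⟨c, hc, h1⟩ := part1
  obtain ⟨n2, h2⟩ := part2
  refine ⟨CT_hasProd, c, hc, fun r hr => ?_⟩
  obtain ⟨δ, hδ, h3⟩ := low_E r
  refine ⟨δ, hδ, fun ε hε => ?_⟩
  obtain ⟨B, N₀, h4⟩ := h1 r hr ε hε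
  refine ⟨B, N₀ + n2 + 10, fun n hn => ⟨fun N hev hN => ⟨fun T hT hTr => ?_, ?_⟩, h2 n (by omega)⟩⟩
  · exact h3 n (by omega) N (by omega) T hT hTr
  · exact h4 n (by omega) N (by omega) hev

end Pool.Agent.Results.MP_c971ef_nt.AlmostAllTuples
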